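import Mathlib

open Real MeasureTheory Set

set_option autoImplicit false

namespace Pool.Agent.AreaRig

/-- sections -/
def sec (K : Set ℂ) (x : ℝ) : Set ℝ := {y : ℝ | (⟨x, y⟩ : ℂ) ∈ K}

theorem volume_eq_lintegral_sec {K : Set ℂ} (hK : MeasurableSet K) :
    volume K = ∫⁻ x, volume (sec K x) := by
  have h1 := Complex.volume_preserving_equiv_real_prod.symm
  have h2 : volume K = (volume : Measure (ℝ × ℝ)) (Complex.measurableEquivRealProd.symm ⁻¹' K) := by
    rw [h1.measure_preimage hK.nullMeasurableSet]
  have h3 : MeasurableSet (Complex.measurableEquivRealProd.symm ⁻¹' K) :=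
    Complex.measurableEquivRealProd.symm.measurable hK
  rw [h2, Measure.volume_eq_prod, Measure.prod_apply h3]
  rfl

theorem image_cos {R x0 : ℝ} (hR : 0 < R) :
    (fun φ => x0 + R * cos φ) '' Ioo 0 π = Ioo (x0 - R) (x0 + R) := by
  ext x
  constructor
  · rintro ⟨φ, hφ, rfl⟩
    have h1 : cos φ < 1 := by
      have := Real.cos_lt_cos_of_nonneg_of_le_pi le_rfl hφ.2.le hφ.1
      rwa [cos_zero] at this
    have h2 : -1 < cos φ := by
      have := Real.cos_lt_cos_of_nonneg_of_le_pi hφ.1.le le_rfl hφ.2
      rwa [cos_pi] at this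
    constructor
    · show x0 - R < x0 + R * cos φ
      nlinarith
    · show x0 + R * cos φ < x0 + R
      nlinarith
  · intro hx
    have h1 : -1 < (x - x0) / R := by
      rw [lt_div_iff₀ hR]
      linarith [hx.1]
    have h2 : (x - x0) / R < 1 := by
      rw [div_lt_iff₀ hR]
      linarith [hx.2]
    refine ⟨arccos ((x - x0) / R), ⟨?_, ?_⟩, ?_⟩
    · exact Real.arccos_pos.mpr h2
    · rw [lt_iff_le_and_ne]
      refine ⟨Real.arccos_le_pi _, fun h => ?_⟩
      rw [Real.arccos_eq_pi] at h
      linarith
    · show x0 + R * cos (arccos ((x - x0) / R)) = x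
      rw [Real.cos_arccos h1.le h2.le]
      field_simp
      ring

theorem injOn_cos {R x0 : ℝ} (hR : 0 < R) : InjOn (fun φ => x0 + R * cos φ) (Ioo 0 π) := by
  intro a ha b hb hab
  have h : cos a = cos b := by
    have h1 : x0 + R * cos a = x0 + R * cos b := hab
    have h2 : R * (cos a - cos b) = 0 := by linarith
    rcases mul_eq_zero.mp h2 with h3 | h3
    · exact absurd h3 hR.ne'
    · linarith
  exact Real.injOn_cos ⟨ha.1.le, ha.2.le⟩ ⟨hb.1.le, hb.2.le⟩ h

/-- Planar Urysohn inequality: the area of a compact set is at most the area of the disc with the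
same mean width. -/
theorem urysohn {K : Set ℂ} (hK : IsCompact K) (hne : K.Nonempty) {g : ℝ → ℝ}
    (hg : Continuous g) (hsup : ∀ α : ℝ, ∀ w ∈ K, cos α * w.re + sin α * w.im ≤ g α) :
    0 ≤ ∫ α in (-π)..π, g α ∧
      4 * π * (volume K).toReal ≤ (∫ α in (-π)..π, g α) ^ 2 := by
  obtain ⟨p, hp, hpmin⟩ := hK.exists_isMinOn hne Complex.continuous_re.continuousOn
  obtain ⟨q, hq, hqmax⟩ := hK.exists_isMaxOn hne Complex.continuous_re.continuousOn
  have hmin : ∀ w ∈ K, p.re ≤ w.re := fun w hw => hpmin hw
  have hmax : ∀ w ∈ K, w.re ≤ q.re := fun w hw => hqmax hw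
  have hpi := Real.pi_pos
  -- nonnegativity of the integral
  have hG0 : 0 ≤ ∫ α in (-π)..π, g α := by
    have h1 : ∫ α in (-π)..π, (cos α * p.re + sin α * p.im) = 0 := by
      rw [intervalIntegral.integral_add, intervalIntegral.integral_mul_const,
        intervalIntegral.integral_mul_const, integral_cos, integral_sin]
      · simp
      · exact (continuous_cos.mul continuous_const).intervalIntegrable _ _
      · exact (continuous_sin.mul continuous_const).intervalIntegrable _ _
    rw [← h1]
    apply intervalIntegral.integral_mono_on (by linarith)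
    · exact ((continuous_cos.mul continuous_const).add
        (continuous_sin.mul continuous_const)).intervalIntegrable _ _
    · exact hg.intervalIntegrable _ _
    · intro α _
      exact hsup α p hp
  refine ⟨hG0, ?_⟩
  set G := ∫ α in (-π)..π, g α with hG
  have hmeas : MeasurableSet K := hK.isClosed.measurableSet
  have hfin : volume K < ⊤ := hK.measure_lt_top
  have hsec0 : ∀ x, x ∉ Icc p.re q.re → volume (sec K x) = 0 := by
    intro x hx
    have : sec K x = ∅ := by
      ext y
      simp only [mem_empty_iff_false, iff_false]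
      intro hy
      exact hx ⟨hmin _ hy, hmax _ hy⟩
    rw [this, measure_empty]
  have hvol : volume K = ∫⁻ x in Icc p.re q.re, volume (sec K x) := by
    rw [volume_eq_lintegral_sec hmeas, ← lintegral_indicator measurableSet_Icc]
    congr 1
    funext x
    by_cases hx : x ∈ Icc p.re q.re
    · rw [indicator_of_mem hx]
    · rw [indicator_of_notMem hx, hsec0 x hx]
  rcases (hmin q hq).eq_or_lt with heq | hlt
  · have h0 : volume K = 0 := by
      rw [hvol, heq, Icc_self]
      simp
    rw [h0]
    simp only [ENNReal.toReal_zero, mul_zero]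
    positivity
  set R := (q.re - p.re) / 2 with hR
  set x0 := (p.re + q.re) / 2 with hx0
  have hR0 : 0 < R := by rw [hR]; linarith
  have ea : x0 - R = p.re := by rw [hR, hx0]; ring
  have eb : x0 + R = q.re := by rw [hR, hx0]; ring
  set F : ℝ → ℝ := fun φ => R * (g φ + g (-φ) - 2 * (x0 + R * cos φ) * cos φ) with hF
  have hFc : Continuous F := by
    rw [hF]
    fun_prop
  have hX : ∀ φ ∈ Ioo 0 π, x0 + R * cos φ ∈ Ioo p.re q.re := by
    intro φ hφ
    have h := image_cos (x0 := x0) hR0
    rw [ea, eb] at h
    rw [← h]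
    exact ⟨φ, hφ, rfl⟩
  have hF0 : ∀ φ ∈ Ioo 0 π, 0 ≤ F φ := by
    intro φ hφ
    have hx := hX φ hφ
    apply mul_nonneg hR0.le
    have hp1 := hsup φ p hp
    have hp2 := hsup (-φ) p hp
    have hq1 := hsup φ q hq
    have hq2 := hsup (-φ) q hq
    rw [cos_neg, sin_neg] at hp2 hq2
    rcases le_or_gt 0 (cos φ) with hc | hc
    · nlinarith [mul_nonneg hc (sub_nonneg.mpr hx.2.le)]
    · nlinarith [mul_nonneg (neg_nonneg.mpr hc.le) (sub_nonneg.mpr hx.1.le)]
  have hle : volume K ≤ ENNReal.ofReal (∫ φ in (0)..π, F φ) := by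
    have hI : ∫⁻ x in Icc p.re q.re, volume (sec K x)
        = ∫⁻ x in Ioo p.re q.re, volume (sec K x) := by
      rw [restrict_Ioo_eq_restrict_Icc]
    rw [hvol, hI, ← ea, ← eb, ← image_cos hR0,
      lintegral_image_eq_lintegral_abs_deriv_mul (f' := fun φ => -(R * sin φ)) measurableSet_Ioo
        _ (injOn_cos hR0)]
    · rw [intervalIntegral.integral_of_le hpi.le, ← integral_Ioc_eq_integral_Ioo.symm,
        ofReal_integral_eq_lintegral_ofReal]
      · apply setLIntegral_mono' measurableSet_Ioo
        intro φ hφ
        have hs : 0 < sin φ := Real.sin_pos_of_pos_of_lt_pi hφ.1 hφ.2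
        have h1 : sec K (x0 + R * cos φ) ⊆
            Icc ((-g (-φ) + (x0 + R * cos φ) * cos φ) / sin φ)
              ((g φ - (x0 + R * cos φ) * cos φ) / sin φ) := by
          intro y hy
          have hy1 := hsup φ _ hy
          have hy2 := hsup (-φ) _ hy
          rw [cos_neg, sin_neg] at hy2
          simp only at hy1 hy2
          constructor
          · rw [div_le_iff₀ hs]
            linarith
          · rw [le_div_iff₀ hs]
            linarith
        have h2 : volume (sec K (x0 + R * cos φ)) ≤ ENNReal.ofReal (F φ / (R * sin φ)) := by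
          refine (measure_mono h1).trans ?_
          rw [Real.volume_Icc]
          apply ENNReal.ofReal_le_ofReal
          rw [hF]
          apply le_of_eq
          field_simp
          ring
        calc ENNReal.ofReal |-(R * sin φ)| * volume (sec K (x0 + R * cos φ))
            ≤ ENNReal.ofReal |-(R * sin φ)| * ENNReal.ofReal (F φ / (R * sin φ)) := by gcongr
          _ = ENNReal.ofReal (F φ) := by
              rw [← ENNReal.ofReal_mul (abs_nonneg _), abs_neg, abs_of_pos (by positivity)]
              congr 1
              field_simp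
      · exact (hFc.integrableOn_Icc (a := 0) (b := π)).mono_set Ioo_subset_Icc_self
      · rw [Filter.EventuallyLE, ae_restrict_iff' measurableSet_Ioo]
        exact Filter.Eventually.of_forall fun φ hφ => hF0 φ hφ
    · intro φ _
      have h := ((hasDerivAt_cos φ).const_mul R).const_add x0
      have e : R * -sin φ = -(R * sin φ) := by ring
      rw [e] at h
      exact h.hasDerivWithinAt
  have hFint : ∫ φ in (0)..π, F φ = R * G - π * R ^ 2 := by
    have hg' : Continuous (fun φ => g (-φ)) := hg.comp continuous_neg
    have i1 : ∫ φ in (0)..π, (g φ + g (-φ)) = G := by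
      rw [intervalIntegral.integral_add (hg.intervalIntegrable _ _)
        (hg'.intervalIntegrable _ _), intervalIntegral.integral_comp_neg,
        neg_zero, add_comm, hG]
      exact intervalIntegral.integral_add_adjacent_intervals (hg.intervalIntegrable _ _)
        (hg.intervalIntegrable _ _)
    have i2 : ∫ φ in (0)..π, cos φ = 0 := by rw [integral_cos]; simp
    have i3 : ∫ φ in (0)..π, cos φ ^ 2 = π / 2 := by rw [integral_cos_sq]; simp
    have e : ∀ φ, F φ = R * (g φ + g (-φ)) - (2 * R * x0) * cos φ - (2 * R ^ 2) * cos φ ^ 2 := by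
      intro φ
      rw [hF]
      ring
    simp only [e]
    rw [intervalIntegral.integral_sub, intervalIntegral.integral_sub,
      intervalIntegral.integral_const_mul, intervalIntegral.integral_const_mul,
      intervalIntegral.integral_const_mul, i1, i2, i3]
    · ring
    all_goals
      apply Continuous.intervalIntegrable
      fun_prop
  rw [hFint] at hle
  have hA : (volume K).toReal ≤ R * G - π * R ^ 2 := by
    have hnn : 0 ≤ R * G - π * R ^ 2 := by
      rw [← hFint, intervalIntegral.integral_of_le hpi.le, integral_Ioc_eq_integral_Ioo]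
      exact setIntegral_nonneg measurableSet_Ioo hF0
    exact ENNReal.toReal_le_of_le_ofReal hnn hle
  nlinarith [sq_nonneg (G - 2 * π * R), Real.pi_pos]

end Pool.Agent.AreaRig
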