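import Mathlib

open Real MeasureTheory Set Metric InnerProductSpace ComplexConjugate

set_option autoImplicit false

namespace Pool.Agent.AreaRig

variable {s : ℝ} {u v : ℂ → ℝ} {w : ℂ}

theorem log_le_quad {x B : ℝ} (hx : 0 < x) (hxB : x ≤ B) (hB : 1 ≤ B) :
    log x ≤ x - 1 - (x - 1) ^ 2 / (4 * B) := by
  have h1 : log x = 2 * log (√x) := by
    rw [Real.log_sqrt hx.le]; ring
  have h2 : log (√x) ≤ √x - 1 := Real.log_le_sub_one_of_pos (Real.sqrt_pos.mpr hx)
  have h3 : √x ^ 2 = x := Real.sq_sqrt hx.le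
  have h4 : (√x + 1) ^ 2 ≤ 4 * B := by
    have h5 : √x ≤ √B := Real.sqrt_le_sqrt hxB
    have h6 : 1 ≤ √B := by rw [Real.one_le_sqrt]; exact hB
    have h7 : √B ^ 2 = B := Real.sq_sqrt (by linarith)
    have h8 : 0 ≤ √x := Real.sqrt_nonneg x
    nlinarith
  have h5 : (x - 1) ^ 2 / (4 * B) ≤ (√x - 1) ^ 2 := by
    rw [div_le_iff₀ (by linarith)]
    have h6 : (x - 1) ^ 2 = (√x - 1) ^ 2 * (√x + 1) ^ 2 := by
      calc (x - 1) ^ 2 = (√x ^ 2 - 1) ^ 2 := by rw [h3]
        _ = (√x - 1) ^ 2 * (√x + 1) ^ 2 := by ring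
    rw [h6]
    exact mul_le_mul_of_nonneg_left h4 (sq_nonneg _)
  nlinarith [sq_nonneg (√x - 1)]

/-- constants -/
noncomputable def cc (ρ : ℝ) : ℝ := (1 - ρ ^ 2) / (2 * ρ)

noncomputable def BB (ρ : ℝ) : ℝ := (1 + ρ) ^ 2 / (1 - ρ) ^ 2

noncomputable def kk (ρ : ℝ) : ℝ := cc ρ * ρ ^ 2 / (16 * BB ρ)

theorem cc_pos {ρ : ℝ} (h0 : 0 < ρ) (h1 : ρ < 1) : 0 < cc ρ := by
  unfold cc
  apply div_pos _ (by linarith)
  nlinarith

theorem BB_ge {ρ : ℝ} (h0 : 0 < ρ) (h1 : ρ < 1) : 1 ≤ BB ρ := by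
  unfold BB
  rw [one_le_div (by nlinarith [sq_pos_of_pos (sub_pos.mpr h1)])]
  nlinarith

theorem kk_pos {ρ : ℝ} (h0 : 0 < ρ) (h1 : ρ < 1) : 0 < kk ρ := by
  unfold kk
  have := BB_ge h0 h1
  have := cc_pos h0 h1
  positivity

theorem pointwise {ρ D1 D2 c1 t : ℝ} (h0 : 0 < ρ) (h1 : ρ < 1) (hD1 : D1 = 1 + ρ ^ 2 - 2 * ρ * c1)
    (hD2 : D2 = 1 + ρ ^ 2 - 2 * ρ * t) (hc1 : |c1| ≤ 1) (ht : |t| ≤ 1) :
    (1 - ρ ^ 2) / D1 * t ≤ (1 - ρ ^ 2) / D1 * ((1 + ρ ^ 2) / (2 * ρ)) - cc ρ * (1 + log D2 - log D1)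
      - kk ρ * (c1 - t) ^ 2 := by
  have ha := abs_le.mp hc1
  have hb := abs_le.mp ht
  have hl1 : (1 - ρ) ^ 2 ≤ D1 := by rw [hD1]; nlinarith
  have hl2 : (1 - ρ) ^ 2 ≤ D2 := by rw [hD2]; nlinarith
  have hu1 : D1 ≤ (1 + ρ) ^ 2 := by rw [hD1]; nlinarith
  have hu2 : D2 ≤ (1 + ρ) ^ 2 := by rw [hD2]; nlinarith
  have hm : 0 < (1 - ρ) ^ 2 := by nlinarith [sq_pos_of_pos (sub_pos.mpr h1)]
  have hp1 : 0 < D1 := lt_of_lt_of_le hm hl1
  have hp2 : 0 < D2 := lt_of_lt_of_le hm hl2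
  have hx : 0 < D2 / D1 := div_pos hp2 hp1
  have hxB : D2 / D1 ≤ BB ρ := by
    unfold BB
    rw [div_le_div_iff₀ hp1 hm]
    exact mul_le_mul hu2 hl1 hm.le (by positivity)
  have hB := BB_ge h0 h1
  have hc := cc_pos h0 h1
  have hlog := log_le_quad hx hxB hB
  rw [Real.log_div hp2.ne' hp1.ne'] at hlog
  have e1 : (1 - ρ ^ 2) / D1 * t = (1 - ρ ^ 2) / D1 * ((1 + ρ ^ 2) / (2 * ρ)) - cc ρ * (D2 / D1) := by
    unfold cc
    rw [hD2]
    field_simp
    ring
  have e2 : ρ ^ 2 / 4 * (c1 - t) ^ 2 ≤ (D2 / D1 - 1) ^ 2 := by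
    have h3 : D2 / D1 - 1 = 2 * ρ * (c1 - t) / D1 := by
      rw [eq_div_iff hp1.ne', sub_mul, div_mul_cancel₀ _ hp1.ne', hD1, hD2]
      ring
    rw [h3, div_pow, le_div_iff₀ (by positivity)]
    have h4 : D1 ^ 2 ≤ 16 := by
      have : D1 ≤ 4 := by nlinarith
      nlinarith
    have h5 : ρ ^ 2 / 4 * (c1 - t) ^ 2 * D1 ^ 2 ≤ ρ ^ 2 / 4 * (c1 - t) ^ 2 * 16 :=
      mul_le_mul_of_nonneg_left h4 (by positivity)
    nlinarith
  have e3 : kk ρ * (c1 - t) ^ 2 ≤ cc ρ * ((D2 / D1 - 1) ^ 2 / (4 * BB ρ)) := by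
    have h6 : kk ρ * (c1 - t) ^ 2 = cc ρ * ((ρ ^ 2 / 4 * (c1 - t) ^ 2) / (4 * BB ρ)) := by
      unfold kk
      field_simp
      ring
    rw [h6]
    gcongr
  rw [e1]
  have h7 : cc ρ * (log D2 - log D1) ≤ cc ρ * (D2 / D1 - 1 - (D2 / D1 - 1) ^ 2 / (4 * BB ρ)) :=
    mul_le_mul_of_nonneg_left hlog hc.le
  nlinarith

theorem ci_of_cont {F : ℂ → ℝ} (h : ContinuousOn F (sphere 0 |s|)) : CircleIntegrable F 0 s :=
  h.circleIntegrable'

theorem key (hs : 0 < s) (hu : HarmonicOnNhd u (closedBall 0 s))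
    (hu1 : ∀ z ∈ sphere (0 : ℂ) s, |u z| ≤ 1) (hw0 : 0 < ‖w‖) (hw : ‖w‖ < s) :
    u w ≤ ‖w‖ / s - cc (‖w‖ / s) *
        circleAverage (fun z => log (1 + (‖w‖ / s) ^ 2 - 2 * (‖w‖ / s) * u z)) 0 s
      - kk (‖w‖ / s) * circleAverage (fun z => ((conj w * z).re / (‖w‖ * s) - u z) ^ 2) 0 s := by
  set ρ := ‖w‖ / s with hρ
  have h0 : 0 < ρ := div_pos hw0 hs
  have h1 : ρ < 1 := by rw [hρ, div_lt_one hs]; exact hw
  have habs : |s| = s := abs_of_pos hs
  have huc : ContinuousOn u (sphere 0 |s|) := by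
    rw [habs]; exact hu.continuousOn.mono sphere_subset_closedBall
  have hne : ∀ z ∈ sphere (0 : ℂ) |s|, z - w ≠ 0 := by
    intro z hz h
    rw [habs, mem_sphere_zero_iff_norm] at hz
    rw [sub_eq_zero] at h
    rw [h] at hz
    linarith
  have hwb : w ∈ ball (0 : ℂ) s := by rw [mem_ball_zero_iff]; exact hw
  have hP : u w = circleAverage (poissonKernel 0 w • u) 0 s :=
    (hu.circleAverage_poissonKernel_smul hwb).symm
  have hP1 : circleAverage (poissonKernel 0 w) 0 s = 1 := by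
    have h := HarmonicOnNhd.circleAverage_poissonKernel_smul (f := fun _ => (1 : ℝ)) (R := s)
      (c := 0) (w := w) (fun _ _ => harmonicAt_const 1) hwb
    have e : poissonKernel 0 w • (fun _ : ℂ => (1 : ℝ)) = poissonKernel 0 w := by
      funext z; simp
    rw [e] at h
    exact h
  have hPc : ContinuousOn (poissonKernel 0 w) (sphere 0 |s|) := by
    unfold poissonKernel
    apply ContinuousOn.div
    · fun_prop
    · fun_prop
    · intro z hz
      have := hne z hz
      simp only [sub_zero]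
      have h3 := norm_pos_iff.mpr this
      positivity
  have hnc : ContinuousOn (fun z : ℂ => log ‖z - w‖) (sphere 0 |s|) := by
    apply ContinuousOn.log (by fun_prop)
    intro z hz
    exact (norm_pos_iff.mpr (hne z hz)).ne'
  have hlog1 : circleAverage (fun z : ℂ => log ‖z - w‖) 0 s = log s :=
    circleAverage_log_norm_sub_const_of_mem_closedBall (by
      rw [mem_closedBall_zero_iff, habs]; exact hw.le)
  -- pointwise data on the sphere
  have hN : ∀ z ∈ sphere (0 : ℂ) |s|, ‖z - w‖ ^ 2 / s ^ 2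
      = 1 + ρ ^ 2 - 2 * ρ * ((conj w * z).re / (‖w‖ * s)) := by
    intro z hz
    rw [habs, mem_sphere_zero_iff_norm] at hz
    have h3 : ‖z - w‖ ^ 2 = ‖z‖ ^ 2 + ‖w‖ ^ 2 - 2 * (conj w * z).re := by
      rw [← Complex.normSq_eq_norm_sq, Complex.normSq_sub, Complex.normSq_eq_norm_sq,
        Complex.normSq_eq_norm_sq]
      congr 2
      simp only [Complex.mul_re, Complex.conj_re, Complex.conj_im]
      ring
    rw [h3, hz, hρ]
    have := hw0.ne'
    field_simp
  have hc1 : ∀ z ∈ sphere (0 : ℂ) |s|, |(conj w * z).re / (‖w‖ * s)| ≤ 1 := by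
    intro z hz
    rw [habs, mem_sphere_zero_iff_norm] at hz
    rw [abs_div, abs_of_pos (mul_pos hw0 hs), div_le_one (mul_pos hw0 hs)]
    refine (Complex.abs_re_le_norm _).trans ?_
    rw [norm_mul, Complex.norm_conj, hz]
  have hD2 : ∀ z ∈ sphere (0 : ℂ) |s|, 0 < 1 + ρ ^ 2 - 2 * ρ * u z := by
    intro z hz
    rw [habs] at hz
    have := abs_le.mp (hu1 z hz)
    nlinarith [sq_pos_of_pos (sub_pos.mpr h1)]
  have hc2 : ContinuousOn (fun z => log (1 + ρ ^ 2 - 2 * ρ * u z)) (sphere 0 |s|) := by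
    apply ContinuousOn.log
    · exact continuousOn_const.sub (continuousOn_const.mul huc)
    · intro z hz
      exact (hD2 z hz).ne'
  have hc3 : ContinuousOn (fun z => ((conj w * z).re / (‖w‖ * s) - u z) ^ 2) (sphere 0 |s|) := by
    apply ContinuousOn.pow
    apply ContinuousOn.sub _ huc
    apply Continuous.continuousOn
    exact (Complex.continuous_re.comp (continuous_const.mul continuous_id)).div_const _
  set A := (1 + ρ ^ 2) / (2 * ρ) with hA
  have hmono : circleAverage (poissonKernel 0 w • u) 0 s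
      ≤ circleAverage (fun z => ((((A * poissonKernel 0 w z - cc ρ * log (1 + ρ ^ 2 - 2 * ρ * u z))
        + (2 * cc ρ) * log ‖z - w‖) - kk ρ * ((conj w * z).re / (‖w‖ * s) - u z) ^ 2)
        + (-(cc ρ) - 2 * cc ρ * log s))) 0 s := by
    apply circleAverage_mono
    · exact ci_of_cont (hPc.smul huc)
    · apply ci_of_cont
      exact ((((continuousOn_const.mul hPc).sub (continuousOn_const.mul hc2)).add
        (continuousOn_const.mul hnc)).sub (continuousOn_const.mul hc3)).add continuousOn_const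
    · intro z hz
      have h3 := pointwise h0 h1 (hN z hz) rfl (hc1 z hz) (hu1 z (by rwa [habs] at hz))
      have h4 : poissonKernel 0 w z = (1 - ρ ^ 2) / (‖z - w‖ ^ 2 / s ^ 2) := by
        have h5 := norm_pos_iff.mpr (hne z hz)
        rw [habs, mem_sphere_zero_iff_norm] at hz
        unfold poissonKernel
        simp only [sub_zero]
        rw [hz, hρ]
        field_simp
      have h5 := norm_pos_iff.mpr (hne z hz)
      have h6 : log (‖z - w‖ ^ 2 / s ^ 2) = 2 * log ‖z - w‖ - 2 * log s := by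
        rw [Real.log_div (by positivity) (by positivity), Real.log_pow, Real.log_pow]
        norm_num
      rw [h6] at h3
      show poissonKernel 0 w z • u z ≤ _
      rw [smul_eq_mul, h4]
      refine h3.trans (le_of_eq ?_)
      ring
  have hval : circleAverage (fun z => ((((A * poissonKernel 0 w z
        - cc ρ * log (1 + ρ ^ 2 - 2 * ρ * u z))
        + (2 * cc ρ) * log ‖z - w‖) - kk ρ * ((conj w * z).re / (‖w‖ * s) - u z) ^ 2)
        + (-(cc ρ) - 2 * cc ρ * log s))) 0 s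
      = ρ - cc ρ * circleAverage (fun z => log (1 + ρ ^ 2 - 2 * ρ * u z)) 0 s
      - kk ρ * circleAverage (fun z => ((conj w * z).re / (‖w‖ * s) - u z) ^ 2) 0 s := by
    have i1 : CircleIntegrable (fun z => A * poissonKernel 0 w z) 0 s :=
      ci_of_cont (continuousOn_const.mul hPc)
    have i2 : CircleIntegrable (fun z => cc ρ * log (1 + ρ ^ 2 - 2 * ρ * u z)) 0 s :=
      ci_of_cont (continuousOn_const.mul hc2)
    have i3 : CircleIntegrable (fun z => (2 * cc ρ) * log ‖z - w‖) 0 s :=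
      ci_of_cont (continuousOn_const.mul hnc)
    have i4 : CircleIntegrable (fun z => kk ρ * ((conj w * z).re / (‖w‖ * s) - u z) ^ 2) 0 s :=
      ci_of_cont (continuousOn_const.mul hc3)
    have i12 : CircleIntegrable (fun z => A * poissonKernel 0 w z
        - cc ρ * log (1 + ρ ^ 2 - 2 * ρ * u z)) 0 s :=
      ci_of_cont ((continuousOn_const.mul hPc).sub (continuousOn_const.mul hc2))
    have i123 : CircleIntegrable (fun z => A * poissonKernel 0 w z
        - cc ρ * log (1 + ρ ^ 2 - 2 * ρ * u z) + (2 * cc ρ) * log ‖z - w‖) 0 s :=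
      ci_of_cont (((continuousOn_const.mul hPc).sub (continuousOn_const.mul hc2)).add
        (continuousOn_const.mul hnc))
    have i1234 : CircleIntegrable (fun z => A * poissonKernel 0 w z
        - cc ρ * log (1 + ρ ^ 2 - 2 * ρ * u z) + (2 * cc ρ) * log ‖z - w‖
        - kk ρ * ((conj w * z).re / (‖w‖ * s) - u z) ^ 2) 0 s :=
      ci_of_cont ((((continuousOn_const.mul hPc).sub (continuousOn_const.mul hc2)).add
        (continuousOn_const.mul hnc)).sub (continuousOn_const.mul hc3))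
    rw [circleAverage_fun_add i1234 (circleIntegrable_const _ _ _),
      circleAverage_fun_sub i123 i4, circleAverage_fun_add i12 i3,
      circleAverage_fun_sub i1 i2]
    have e1 : circleAverage (fun z => A * poissonKernel 0 w z) 0 s = A := by
      have := circleAverage_fun_smul (a := A) (f := poissonKernel 0 w) (c := 0) (R := s)
      simp only [smul_eq_mul] at this
      rw [this, hP1, mul_one]
    have e2 : circleAverage (fun z => cc ρ * log (1 + ρ ^ 2 - 2 * ρ * u z)) 0 s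
        = cc ρ * circleAverage (fun z => log (1 + ρ ^ 2 - 2 * ρ * u z)) 0 s := by
      have := circleAverage_fun_smul (a := cc ρ) (f := fun z => log (1 + ρ ^ 2 - 2 * ρ * u z))
        (c := 0) (R := s)
      simpa only [smul_eq_mul] using this
    have e3 : circleAverage (fun z => (2 * cc ρ) * log ‖z - w‖) 0 s = 2 * cc ρ * log s := by
      have := circleAverage_fun_smul (a := 2 * cc ρ) (f := fun z => log ‖z - w‖)
        (c := 0) (R := s)
      simp only [smul_eq_mul] at this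
      rw [this, hlog1]
    have e4 : circleAverage (fun z => kk ρ * ((conj w * z).re / (‖w‖ * s) - u z) ^ 2) 0 s
        = kk ρ * circleAverage (fun z => ((conj w * z).re / (‖w‖ * s) - u z) ^ 2) 0 s := by
      have := circleAverage_fun_smul (a := kk ρ)
        (f := fun z => ((conj w * z).re / (‖w‖ * s) - u z) ^ 2) (c := 0) (R := s)
      simpa only [smul_eq_mul] using this
    rw [e1, e2, e3, e4, circleAverage_const]
    have e5 : A - cc ρ = ρ := by
      rw [hA]
      unfold cc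
      field_simp
      ring
    linarith
  rw [hP]
  exact hmono.trans (le_of_eq hval)

end Pool.Agent.AreaRig
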