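import Mathlib
import Pool.Agent.AreaRig.Harm

open Real MeasureTheory Set Metric InnerProductSpace ComplexConjugate

set_option autoImplicit false

namespace Pool.Agent.AreaRig

variable {s : ℝ} {u v : ℂ → ℝ} {w : ℂ}

theorem ne_of_sphere (hs : 0 < s) (hw : ‖w‖ < s) : ∀ z ∈ sphere (0 : ℂ) |s|, z - w ≠ 0 := by
  intro z hz h
  rw [abs_of_pos hs, mem_sphere_zero_iff_norm] at hz
  rw [sub_eq_zero] at h
  rw [h] at hz
  linarith

theorem poisson_cont (hs : 0 < s) (hw : ‖w‖ < s) :
    ContinuousOn (poissonKernel 0 w) (sphere 0 |s|) := by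
  unfold poissonKernel
  apply ContinuousOn.div
  · fun_prop
  · fun_prop
  · intro z hz
    have := ne_of_sphere hs hw z hz
    simp only [sub_zero]
    have h3 := norm_pos_iff.mpr this
    positivity

theorem poisson_one (hs : 0 < s) (hw : ‖w‖ < s) : circleAverage (poissonKernel 0 w) 0 s = 1 := by
  have hwb : w ∈ ball (0 : ℂ) s := by rw [mem_ball_zero_iff]; exact hw
  have h := HarmonicOnNhd.circleAverage_poissonKernel_smul (f := fun _ => (1 : ℝ)) (R := s)
    (c := 0) (w := w) (fun _ _ => harmonicAt_const 1) hwb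
  have e : poissonKernel 0 w • (fun _ : ℂ => (1 : ℝ)) = poissonKernel 0 w := by
    funext z; simp
  rw [e] at h
  exact h

theorem poisson_pos (hs : 0 < s) (hw : ‖w‖ < s) : ∀ z ∈ sphere (0 : ℂ) |s|,
    0 ≤ poissonKernel 0 w z := by
  intro z hz
  rw [abs_of_pos hs, mem_sphere_zero_iff_norm] at hz
  unfold poissonKernel
  simp only [sub_zero]
  rw [hz]
  apply div_nonneg _ (by positivity)
  nlinarith [norm_nonneg w]

theorem poisson_le (hs : 0 < s) (hw : ‖w‖ < s) : ∀ z ∈ sphere (0 : ℂ) |s|,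
    poissonKernel 0 w z ≤ (s + ‖w‖) / (s - ‖w‖) := by
  intro z hz
  rw [abs_of_pos hs, mem_sphere_zero_iff_norm] at hz
  unfold poissonKernel
  simp only [sub_zero]
  rw [hz]
  have h1 : s - ‖w‖ ≤ ‖z - w‖ := by
    have := norm_sub_norm_le z w
    rwa [hz] at this
  have h2 : 0 < s - ‖w‖ := by linarith
  have h3 : (s - ‖w‖) ^ 2 ≤ ‖z - w‖ ^ 2 := pow_le_pow_left₀ h2.le h1 2
  rw [div_le_div_iff₀ (lt_of_lt_of_le (by positivity) h3) h2]
  have h4 : 0 ≤ s + ‖w‖ := by positivity
  nlinarith [mul_le_mul_of_nonneg_left h3 h4]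

/-- maximum principle -/
theorem le_of_le_sphere {C : ℝ} (hs : 0 < s) (hu : HarmonicOnNhd u (closedBall 0 s))
    (hC : ∀ z ∈ sphere (0 : ℂ) s, u z ≤ C) : ∀ z ∈ closedBall (0 : ℂ) s, u z ≤ C := by
  intro z hz
  rw [mem_closedBall_zero_iff] at hz
  rcases hz.lt_or_eq with hlt | heq
  · have hwb : z ∈ ball (0 : ℂ) s := by rw [mem_ball_zero_iff]; exact hlt
    have huc : ContinuousOn u (sphere 0 |s|) := by
      rw [abs_of_pos hs]; exact hu.continuousOn.mono sphere_subset_closedBall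
    rw [← hu.circleAverage_poissonKernel_smul hwb]
    have h1 : circleAverage (fun x => C * poissonKernel 0 z x) 0 s = C := by
      have := circleAverage_fun_smul (a := C) (f := poissonKernel 0 z) (c := 0) (R := s)
      simp only [smul_eq_mul] at this
      rw [this, poisson_one hs hlt, mul_one]
    rw [← h1]
    apply circleAverage_mono
    · exact ci_of_cont ((poisson_cont hs hlt).smul huc)
    · exact ci_of_cont (continuousOn_const.mul (poisson_cont hs hlt))
    · intro x hx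
      show poissonKernel 0 z x • u x ≤ C * poissonKernel 0 z x
      rw [smul_eq_mul, mul_comm C]
      exact mul_le_mul_of_nonneg_left (hC x (by rwa [abs_of_pos hs] at hx))
        (poisson_pos hs hlt x hx)
  · exact hC z (by rw [mem_sphere_zero_iff_norm]; exact heq)

theorem sq_le_avg (hs : 0 < s) (hv : HarmonicOnNhd v (closedBall 0 s)) (hw : ‖w‖ < s) :
    v w ^ 2 ≤ (s + ‖w‖) / (s - ‖w‖) * circleAverage (fun z => v z ^ 2) 0 s := by
  have hvc : ContinuousOn v (sphere 0 |s|) := by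
    rw [abs_of_pos hs]; exact hv.continuousOn.mono sphere_subset_closedBall
  have hwb : w ∈ ball (0 : ℂ) s := by rw [mem_ball_zero_iff]; exact hw
  have hPc := poisson_cont hs hw
  have hP : circleAverage (poissonKernel 0 w * v) 0 s = v w :=
    hv.circleAverage_poissonKernel_smul hwb
  have hP1 := poisson_one hs hw
  set m := v w with hm
  have c1 : ContinuousOn (fun z => (2 * m) * (poissonKernel 0 w z • v z)) (sphere 0 |s|) :=
    continuousOn_const.mul (hPc.smul hvc)
  have c2 : ContinuousOn (fun z => m ^ 2 * poissonKernel 0 w z) (sphere 0 |s|) :=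
    continuousOn_const.mul hPc
  have c3 : ContinuousOn (fun z => ((s + ‖w‖) / (s - ‖w‖)) * v z ^ 2) (sphere 0 |s|) :=
    continuousOn_const.mul (hvc.pow 2)
  have h1 : circleAverage (fun z => (2 * m) * (poissonKernel 0 w z • v z)
      - m ^ 2 * poissonKernel 0 w z) 0 s
      ≤ circleAverage (fun z => ((s + ‖w‖) / (s - ‖w‖)) * v z ^ 2) 0 s := by
    apply circleAverage_mono (ci_of_cont (c1.sub c2)) (ci_of_cont c3)
    intro z hz
    have hp := poisson_pos hs hw z hz
    have hq := poisson_le hs hw z hz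
    show 2 * m * (poissonKernel 0 w z * v z) - m ^ 2 * poissonKernel 0 w z ≤ _
    nlinarith [mul_nonneg hp (sq_nonneg (v z - m)),
      mul_nonneg (sub_nonneg.mpr hq) (sq_nonneg (v z))]
  rw [circleAverage_fun_sub (ci_of_cont c1) (ci_of_cont c2)] at h1
  have e1 : circleAverage (fun z => (2 * m) * (poissonKernel 0 w z • v z)) 0 s = 2 * m * m := by
    have := circleAverage_fun_smul (a := 2 * m) (f := poissonKernel 0 w • v) (c := 0) (R := s)
    simp only [smul_eq_mul] at this
    rw [hP] at this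
    exact this
  have e2 : circleAverage (fun z => m ^ 2 * poissonKernel 0 w z) 0 s = m ^ 2 := by
    have := circleAverage_fun_smul (a := m ^ 2) (f := poissonKernel 0 w) (c := 0) (R := s)
    simp only [smul_eq_mul] at this
    rw [this, hP1, mul_one]
  have e3 : circleAverage (fun z => ((s + ‖w‖) / (s - ‖w‖)) * v z ^ 2) 0 s
      = (s + ‖w‖) / (s - ‖w‖) * circleAverage (fun z => v z ^ 2) 0 s := by
    have := circleAverage_fun_smul (a := (s + ‖w‖) / (s - ‖w‖)) (f := fun z => v z ^ 2)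
      (c := 0) (R := s)
    simpa only [smul_eq_mul] using this
  rw [e1, e2, e3] at h1
  linarith [h1]

theorem avg_sq_nonneg : 0 ≤ circleAverage (fun z => v z ^ 2) 0 s :=
  circleAverage_nonneg_of_nonneg fun z _ => sq_nonneg _

theorem sq_le_avg' {τ : ℝ} (hs : 0 < s) (hv : HarmonicOnNhd v (closedBall 0 s)) (hw : ‖w‖ ≤ τ)
    (hτ : τ < s) :
    v w ^ 2 ≤ (s + τ) / (s - τ) * circleAverage (fun z => v z ^ 2) 0 s := by
  refine (sq_le_avg hs hv (lt_of_le_of_lt hw hτ)).trans ?_
  apply mul_le_mul_of_nonneg_right _ avg_sq_nonneg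
  have h1 : 0 < s - τ := by linarith
  have h2 : 0 < s - ‖w‖ := by linarith
  rw [div_le_div_iff₀ h2 h1]
  nlinarith

theorem lam_le {τ : ℝ} {a b : ℂ} (hs : 0 < s) (hv : HarmonicOnNhd v (closedBall 0 s))
    (ha : ‖a‖ ≤ τ) (hb : ‖b‖ ≤ τ) (hab : ‖a + b‖ ≤ τ) (hτ : τ < s) :
    (v (a + b) - v a - v b) ^ 2
      ≤ 9 * ((s + τ) / (s - τ)) * circleAverage (fun z => v z ^ 2) 0 s := by
  have h1 := sq_le_avg' hs hv ha hτ
  have h2 := sq_le_avg' hs hv hb hτ
  have h3 := sq_le_avg' hs hv hab hτ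
  nlinarith [sq_nonneg (v (a + b) + v a), sq_nonneg (v (a + b) + v b), sq_nonneg (v a - v b)]

theorem harmonic_lin (w : ℂ) (c : ℝ) (S : Set ℂ) :
    HarmonicOnNhd (fun z => (conj w * z).re / c) S := by
  intro z _
  have h : AnalyticAt ℂ (fun z : ℂ => conj w * z / (c : ℂ)) z := by fun_prop
  have h2 := h.harmonicAt_re
  have e : (fun z : ℂ => (conj w * z / (c : ℂ)).re) = fun z => (conj w * z).re / c := by
    funext z
    rw [Complex.div_ofReal_re]
  rw [e] at h2
  exact h2

/-- Main inequality for one direction. -/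
theorem key2 {r τ : ℝ} {a b : ℂ} (hr : 0 < r) (hrs : r < s)
    (hu : HarmonicOnNhd u (closedBall 0 s)) (hu1 : ∀ z ∈ sphere (0 : ℂ) s, |u z| ≤ 1)
    (ha : ‖a‖ ≤ τ) (hb : ‖b‖ ≤ τ) (hab : ‖a + b‖ ≤ τ) (hτ : τ < s) :
    ∀ w ∈ closedBall (0 : ℂ) r,
      u w ≤ r / s - cc (r / s) *
        circleAverage (fun z => log (1 + (r / s) ^ 2 - 2 * (r / s) * u z)) 0 s
      - kk (r / s) / (9 * ((s + τ) / (s - τ))) * (u (a + b) - u a - u b) ^ 2 := by
  have hs : 0 < s := hr.trans hrs
  have h0 : 0 < r / s := div_pos hr hs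
  have h1 : r / s < 1 := by rw [div_lt_one hs]; exact hrs
  have hτ0 : 0 ≤ τ := (norm_nonneg a).trans ha
  apply le_of_le_sphere hr (hu.mono (closedBall_subset_closedBall hrs.le))
  intro w hw
  rw [mem_sphere_zero_iff_norm] at hw
  have h := key hs hu hu1 (by rw [hw]; exact hr) (by rw [hw]; exact hrs)
  rw [hw] at h
  have hv : HarmonicOnNhd (fun z => (conj w * z).re / (r * s) - u z) (closedBall 0 s) :=
    (harmonic_lin w (r * s) _).sub hu
  have h2 := lam_le hs hv ha hb hab hτ
  have e : ((conj w * (a + b)).re / (r * s) - u (a + b)) - ((conj w * a).re / (r * s) - u a)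
      - ((conj w * b).re / (r * s) - u b) = -(u (a + b) - u a - u b) := by
    rw [mul_add, Complex.add_re]
    ring
  simp only [e, neg_sq] at h2
  have h3 : 0 < 9 * ((s + τ) / (s - τ)) := by
    have : 0 < s - τ := by linarith
    positivity
  have h4 : kk (r / s) / (9 * ((s + τ) / (s - τ))) * (u (a + b) - u a - u b) ^ 2
      ≤ kk (r / s) * circleAverage (fun z => ((conj w * z).re / (r * s) - u z) ^ 2) 0 s := by
    rw [div_mul_eq_mul_div, div_le_iff₀ h3]
    have := mul_le_mul_of_nonneg_left h2 (kk_pos h0 h1).le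
    linarith
  linarith

/-- inner average over directions -/
theorem inner_nonneg {ρ : ℝ} (h0 : 0 < ρ) (h1 : ρ < 1) {w : ℂ} (hw : ‖w‖ ≤ 1) :
    0 ≤ ∫ α in (-π)..π, log (1 + ρ ^ 2 - 2 * ρ * (cos α * w.re + sin α * w.im)) := by
  have hJ : ∀ β : ℂ, ‖β‖ < 1 → ∫ α in (-π)..π, log ‖circleMap 0 1 α - β‖ = 0 := by
    intro β hβ
    have h := circleAverage_log_norm_sub_const₀ hβ
    rw [circleAverage_def, smul_eq_zero] at h
    rcases h with h | h
    · exfalso
      have := Real.pi_pos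
      have h2 : (2 * π)⁻¹ ≠ 0 := by positivity
      exact h2 h
    · have hper : Function.Periodic (fun α => log ‖circleMap 0 1 α - β‖) (2 * π) := by
        intro α
        simp only [periodic_circleMap 0 1 α]
      have h3 := hper.intervalIntegral_add_eq (-π) 0
      have e1 : -π + 2 * π = π := by ring
      rw [e1, zero_add] at h3
      rw [h3]
      exact h
  obtain ⟨w1, hw1, hww⟩ : ∃ w1 : ℂ, ‖w1‖ = 1 ∧ w = (‖w‖ : ℂ) * w1 := by
    by_cases hz : w = 0
    · exact ⟨1, by simp, by simp [hz]⟩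
    · have hn : (‖w‖ : ℂ) ≠ 0 := by
        rw [Ne, Complex.ofReal_eq_zero]; exact norm_ne_zero_iff.mpr hz
      refine ⟨w / ‖w‖, ?_, ?_⟩
      · rw [norm_div, Complex.norm_real, norm_norm, div_self (norm_ne_zero_iff.mpr hz)]
      · field_simp
  set m := ‖w‖ with hm
  have hm0 : 0 ≤ m := norm_nonneg w
  set β : ℂ := (ρ : ℂ) * w1 with hβ
  have hβn : ‖β‖ = ρ := by rw [hβ, norm_mul, hw1, mul_one, Complex.norm_real, Real.norm_eq_abs,
    abs_of_pos h0]
  have hre : w.re = m * w1.re := by rw [hww]; simp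
  have him : w.im = m * w1.im := by rw [hww]; simp
  have hsq : w1.re ^ 2 + w1.im ^ 2 = 1 := by
    have := Complex.normSq_eq_norm_sq w1
    rw [hw1, Complex.normSq_apply] at this
    nlinarith
  have hexp : ∀ (σ : ℝ), σ ^ 2 = 1 → ∀ α : ℝ, ‖circleMap 0 1 α - σ * β‖ ^ 2
      = 1 + ρ ^ 2 - 2 * ρ * σ * (cos α * w1.re + sin α * w1.im) := by
    intro σ hσ α
    rw [← Complex.normSq_eq_norm_sq, Complex.normSq_apply]
    have hc : circleMap 0 1 α = (cos α : ℂ) + (sin α : ℂ) * Complex.I := by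
      rw [circleMap]
      simp [Complex.exp_mul_I]
    rw [hc, hβ]
    simp only [Complex.sub_re, Complex.add_re, Complex.mul_re, Complex.ofReal_re, Complex.ofReal_im,
      Complex.I_re, Complex.I_im, Complex.sub_im, Complex.add_im, Complex.mul_im]
    have hcs := Real.sin_sq_add_cos_sq α
    linear_combination hcs + σ ^ 2 * ρ ^ 2 * hsq + ρ ^ 2 * hσ
  have hpos : ∀ (σ : ℝ), σ ^ 2 = 1 → ∀ α : ℝ, 0 < ‖circleMap 0 1 α - σ * β‖ := by
    intro σ hσ α
    rw [norm_pos_iff, sub_ne_zero]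
    intro h
    have h2 : ‖circleMap 0 1 α‖ = 1 := by simp
    rw [h, norm_mul, hβn, Complex.norm_real, Real.norm_eq_abs] at h2
    have h3 : |σ| = 1 := by
      have : |σ| ^ 2 = 1 := by rw [sq_abs]; exact hσ
      nlinarith [abs_nonneg σ, this, sq_nonneg (|σ| - 1)]
    rw [h3] at h2
    linarith
  have hlow : ∀ α : ℝ, (1 + m) * log ‖circleMap 0 1 α - (1 : ℝ) * β‖
      + (1 - m) * log ‖circleMap 0 1 α - ((-1 : ℝ) : ℂ) * β‖
      ≤ log (1 + ρ ^ 2 - 2 * ρ * (cos α * w.re + sin α * w.im)) := by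
    intro α
    have p1 := hpos 1 (by norm_num) α
    have p2 := hpos (-1) (by norm_num) α
    have e1 := hexp 1 (by norm_num) α
    have e2 := hexp (-1) (by norm_num) α
    obtain ⟨_, hcc⟩ := strictConcaveOn_log_Ioi.concaveOn
    have q1 : ‖circleMap 0 1 α - (1 : ℝ) * β‖ ^ 2 ∈ Ioi (0 : ℝ) := by
      rw [mem_Ioi]
      positivity
    have q2 : ‖circleMap 0 1 α - ((-1 : ℝ) : ℂ) * β‖ ^ 2 ∈ Ioi (0 : ℝ) := by
      rw [mem_Ioi]
      positivity
    have hconc := hcc q1 q2 (show 0 ≤ (1 + m) / 2 by linarith)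
      (show 0 ≤ (1 - m) / 2 by linarith) (by ring)
    simp only [smul_eq_mul] at hconc
    rw [Real.log_pow, Real.log_pow, e1, e2] at hconc
    have e3 : (1 + m) / 2 * (1 + ρ ^ 2 - 2 * ρ * 1 * (cos α * w1.re + sin α * w1.im))
        + (1 - m) / 2 * (1 + ρ ^ 2 - 2 * ρ * (-1) * (cos α * w1.re + sin α * w1.im))
        = 1 + ρ ^ 2 - 2 * ρ * (cos α * w.re + sin α * w.im) := by
      rw [hre, him]
      ring
    rw [e3] at hconc
    refine le_trans (le_of_eq ?_) hconc
    push_cast
    ring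
  have hcont : ∀ (σ : ℝ), σ ^ 2 = 1 → Continuous (fun α => log ‖circleMap 0 1 α - σ * β‖) := by
    intro σ hσ
    apply Continuous.log
    · fun_prop
    · intro α
      exact (hpos σ hσ α).ne'
  have hint : ∫ α in (-π)..π, ((1 + m) * log ‖circleMap 0 1 α - (1 : ℝ) * β‖
      + (1 - m) * log ‖circleMap 0 1 α - ((-1 : ℝ) : ℂ) * β‖) = 0 := by
    rw [intervalIntegral.integral_add
      (((hcont 1 (by norm_num)).const_mul _).intervalIntegrable _ _)
      (((hcont (-1) (by norm_num)).const_mul _).intervalIntegrable _ _),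
      intervalIntegral.integral_const_mul, intervalIntegral.integral_const_mul, hJ, hJ]
    · ring
    · rw [norm_mul, hβn]; simpa using h1
    · rw [norm_mul, hβn]; simpa using h1
  rw [← hint]
  apply intervalIntegral.integral_mono_on (by linarith [Real.pi_pos])
  · exact (((hcont 1 (by norm_num)).const_mul _).add
      ((hcont (-1) (by norm_num)).const_mul _)).intervalIntegrable _ _
  · apply Continuous.intervalIntegrable
    apply Continuous.log (by fun_prop)
    intro α
    have h2 : cos α * w.re + sin α * w.im ≤ 1 := by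
      have h3 : w.re ^ 2 + w.im ^ 2 ≤ 1 := by
        rw [hre, him]
        nlinarith [mul_nonneg hm0 hm0]
      nlinarith [Real.sin_sq_add_cos_sq α, sq_nonneg (cos α - w.re), sq_nonneg (sin α - w.im)]
    have : 0 < (1 - ρ) ^ 2 := by nlinarith [sq_pos_of_pos (sub_pos.mpr h1)]
    nlinarith
  · intro α _
    exact hlow α

end Pool.Agent.AreaRig
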