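import Mathlib
import Pool.Agent.AreaRig.Iso
import Pool.Agent.AreaRig.Mean

open Real MeasureTheory Set Metric InnerProductSpace ComplexConjugate Filter Topology

set_option autoImplicit false

namespace Pool.Agent.AreaRig

/-- directional component -/
noncomputable def comp (f : ℂ → ℂ) (α : ℝ) (z : ℂ) : ℝ := cos α * (f z).re + sin α * (f z).im

theorem comp_harmonic {f : ℂ → ℂ} {S : Set ℂ} (hf : HarmonicOnNhd f S) (α : ℝ) :
    HarmonicOnNhd (comp f α) S := by
  have h1 : HarmonicOnNhd (Complex.reCLM ∘ f) S := hf.comp_CLM Complex.reCLM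
  have h2 : HarmonicOnNhd (Complex.imCLM ∘ f) S := hf.comp_CLM Complex.imCLM
  exact (h1.const_smul (c := cos α)).add (h2.const_smul (c := sin α))

theorem comp_abs_le (f : ℂ → ℂ) (α : ℝ) (z : ℂ) : |comp f α z| ≤ ‖f z‖ := by
  unfold comp
  apply abs_le_of_sq_le_sq _ (norm_nonneg _)
  rw [← Complex.normSq_eq_norm_sq, Complex.normSq_apply]
  have h := Real.sin_sq_add_cos_sq α
  nlinarith [sq_nonneg (cos α * (f z).im - sin α * (f z).re), h]

theorem continuous_circle {f : ℂ → ℂ} (hf : HarmonicOnNhd f (ball 0 1)) {s : ℝ} (hs : 0 < s)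
    (hs1 : s < 1) : Continuous (fun θ => f (circleMap 0 s θ)) := by
  apply hf.continuousOn.comp_continuous (continuous_circleMap 0 s)
  intro θ
  rw [mem_ball_zero_iff, norm_circleMap_zero, abs_of_pos hs]
  exact hs1

theorem arg_pos {ρ t : ℝ} (h0 : 0 < ρ) (h1 : ρ < 1) (ht : |t| ≤ 1) :
    0 < 1 + ρ ^ 2 - 2 * ρ * t := by
  have := abs_le.mp ht
  nlinarith [sq_pos_of_pos (sub_pos.mpr h1)]

/-- the logarithmic average -/
noncomputable def LL (f : ℂ → ℂ) (s ρ α : ℝ) : ℝ :=
  circleAverage (fun z => log (1 + ρ ^ 2 - 2 * ρ * comp f α z)) 0 s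

theorem continuous_F {f : ℂ → ℂ} (hf : HarmonicOnNhd f (ball 0 1))
    (hm : ∀ z ∈ ball (0 : ℂ) 1, ‖f z‖ < 1) {s ρ : ℝ} (hs : 0 < s) (hs1 : s < 1) (h0 : 0 < ρ)
    (h1 : ρ < 1) : Continuous (fun p : ℝ × ℝ =>
      log (1 + ρ ^ 2 - 2 * ρ * comp f p.1 (circleMap 0 s p.2))) := by
  have hc := continuous_circle hf hs hs1
  apply Continuous.log
  · unfold comp
    have hc2 : Continuous (fun p : ℝ × ℝ => f (circleMap 0 s p.2)) := hc.comp continuous_snd
    have hre : Continuous (fun p : ℝ × ℝ => (f (circleMap 0 s p.2)).re) :=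
      Complex.continuous_re.comp hc2
    have him : Continuous (fun p : ℝ × ℝ => (f (circleMap 0 s p.2)).im) :=
      Complex.continuous_im.comp hc2
    have hcos : Continuous (fun p : ℝ × ℝ => cos p.1) := continuous_cos.comp continuous_fst
    have hsin : Continuous (fun p : ℝ × ℝ => sin p.1) := continuous_sin.comp continuous_fst
    exact continuous_const.sub (continuous_const.mul ((hcos.mul hre).add (hsin.mul him)))
  · intro p
    apply (arg_pos h0 h1 _).ne'
    refine (comp_abs_le _ _ _).trans (hm _ ?_).le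
    rw [mem_ball_zero_iff, norm_circleMap_zero, abs_of_pos hs]
    exact hs1

theorem continuous_LL {f : ℂ → ℂ} (hf : HarmonicOnNhd f (ball 0 1))
    (hm : ∀ z ∈ ball (0 : ℂ) 1, ‖f z‖ < 1) {s ρ : ℝ} (hs : 0 < s) (hs1 : s < 1) (h0 : 0 < ρ)
    (h1 : ρ < 1) : Continuous (LL f s ρ) := by
  unfold LL
  simp only [circleAverage_def]
  have h : Continuous (fun α => ∫ θ in (0)..(2 * π),
      log (1 + ρ ^ 2 - 2 * ρ * comp f α (circleMap 0 s θ))) := by
    apply intervalIntegral.continuous_parametric_intervalIntegral_of_continuous'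
    exact continuous_F hf hm hs hs1 h0 h1
  exact continuous_const.mul h

theorem integral_LL {f : ℂ → ℂ} (hf : HarmonicOnNhd f (ball 0 1))
    (hm : ∀ z ∈ ball (0 : ℂ) 1, ‖f z‖ < 1) {s ρ : ℝ} (hs : 0 < s) (hs1 : s < 1) (h0 : 0 < ρ)
    (h1 : ρ < 1) : 0 ≤ ∫ α in (-π)..π, LL f s ρ α := by
  have hpi := Real.pi_pos
  have hF := continuous_F hf hm hs hs1 h0 h1
  unfold LL
  simp only [circleAverage_def, smul_eq_mul]
  rw [intervalIntegral.integral_const_mul]
  apply mul_nonneg (by positivity)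
  rw [intervalIntegral.integral_of_le (by linarith : -π ≤ π)]
  simp only [intervalIntegral.integral_of_le (by linarith : (0 : ℝ) ≤ 2 * π)]
  rw [integral_integral_swap]
  · apply integral_nonneg
    intro θ
    simp only [Pi.zero_apply]
    rw [← intervalIntegral.integral_of_le (by linarith : -π ≤ π)]
    have := inner_nonneg h0 h1 (w := f (circleMap 0 s θ)) (hm _ (by
      rw [mem_ball_zero_iff, norm_circleMap_zero, abs_of_pos hs]
      exact hs1)).le
    exact this
  · rw [Measure.prod_restrict]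
    have h2 : IntegrableOn (fun p : ℝ × ℝ =>
        log (1 + ρ ^ 2 - 2 * ρ * comp f p.1 (circleMap 0 s p.2)))
        (Icc (-π) π ×ˢ Icc 0 (2 * π)) (volume.prod volume) :=
      hF.continuousOn.integrableOn_compact (isCompact_Icc.prod isCompact_Icc)
    exact h2.mono_set (prod_mono Ioc_subset_Icc_self Ioc_subset_Icc_self)

/-- Area inequality with remainder. -/
theorem area_rem {f : ℂ → ℂ} (hf : HarmonicOnNhd f (ball 0 1))
    (hm : ∀ z ∈ ball (0 : ℂ) 1, ‖f z‖ < 1) {r s τ : ℝ} {a b : ℂ} (hr : 0 < r) (hrs : r < s)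
    (hs1 : s < 1) (ha : ‖a‖ ≤ τ) (hb : ‖b‖ ≤ τ) (hab : ‖a + b‖ ≤ τ) (hτ : τ < s)
    (hA : π * r ^ 2 ≤ (volume (f '' closedBall 0 r)).toReal) :
    2 * π * r ≤ 2 * π * (r / s)
      - kk (r / s) / (9 * ((s + τ) / (s - τ))) * (π * ‖f (a + b) - f a - f b‖ ^ 2) := by
  have hs : 0 < s := hr.trans hrs
  have h0 : 0 < r / s := div_pos hr hs
  have h1 : r / s < 1 := by rw [div_lt_one hs]; exact hrs
  have hpi := Real.pi_pos
  set κ := kk (r / s) / (9 * ((s + τ) / (s - τ))) with hκ
  set Λ := f (a + b) - f a - f b with hΛ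
  set g : ℝ → ℝ := fun α => r / s - cc (r / s) * LL f s (r / s) α
    - κ * (cos α * Λ.re + sin α * Λ.im) ^ 2 with hg
  have hLc := continuous_LL hf hm hs hs1 h0 h1
  have hgc : Continuous g := by
    rw [hg]
    exact (continuous_const.sub (continuous_const.mul hLc)).sub (by fun_prop)
  have hsub : closedBall (0 : ℂ) s ⊆ ball 0 1 := closedBall_subset_ball hs1
  have hK : IsCompact (f '' closedBall 0 r) :=
    (isCompact_closedBall (0 : ℂ) r).image_of_continuousOn
      (hf.continuousOn.mono ((closedBall_subset_closedBall hrs.le).trans hsub))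
  have hne : (f '' closedBall 0 r).Nonempty := ⟨f 0, 0, by simp [hr.le], rfl⟩
  have hsup : ∀ α : ℝ, ∀ w ∈ f '' closedBall 0 r, cos α * w.re + sin α * w.im ≤ g α := by
    rintro α _ ⟨w, hw, rfl⟩
    have h := key2 (u := comp f α) hr hrs ((comp_harmonic hf α).mono hsub) (by
      intro z hz
      refine (comp_abs_le _ _ _).trans (hm z (hsub (sphere_subset_closedBall hz))).le)
      ha hb hab hτ w hw
    have e : comp f α (a + b) - comp f α a - comp f α b = cos α * Λ.re + sin α * Λ.im := by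
      unfold comp
      rw [hΛ]
      simp only [Complex.sub_re, Complex.sub_im]
      ring
    rw [e] at h
    exact h
  obtain ⟨hG0, hG⟩ := urysohn hK hne hgc hsup
  have hint : ∫ α in (-π)..π, g α = 2 * π * (r / s)
      - cc (r / s) * (∫ α in (-π)..π, LL f s (r / s) α) - κ * (π * ‖Λ‖ ^ 2) := by
    have i1 : ∫ α in (-π)..π, (cos α * Λ.re + sin α * Λ.im) ^ 2 = π * ‖Λ‖ ^ 2 := by
      have e : ∀ α, (cos α * Λ.re + sin α * Λ.im) ^ 2
          = Λ.re ^ 2 * cos α ^ 2 + Λ.im ^ 2 * sin α ^ 2 + (2 * Λ.re * Λ.im) * (sin α * cos α) := by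
        intro α; ring
      simp only [e]
      rw [intervalIntegral.integral_add, intervalIntegral.integral_add,
        intervalIntegral.integral_const_mul, intervalIntegral.integral_const_mul,
        intervalIntegral.integral_const_mul, integral_cos_sq, integral_sin_sq,
        integral_sin_mul_cos₁, ← Complex.normSq_eq_norm_sq, Complex.normSq_apply]
      · simp
        ring
      all_goals
        apply Continuous.intervalIntegrable
        fun_prop
    rw [hg, intervalIntegral.integral_sub, intervalIntegral.integral_sub,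
      intervalIntegral.integral_const_mul, intervalIntegral.integral_const_mul, i1,
      intervalIntegral.integral_const]
    · rw [smul_eq_mul]
      ring
    · exact intervalIntegrable_const
    · exact (continuous_const.mul hLc).intervalIntegrable _ _
    · exact (continuous_const.sub (continuous_const.mul hLc)).intervalIntegrable _ _
    · apply Continuous.intervalIntegrable
      fun_prop
  have hLL := integral_LL hf hm hs hs1 h0 h1
  have hcc := cc_pos h0 h1
  have hle : ∫ α in (-π)..π, g α ≤ 2 * π * (r / s) - κ * (π * ‖Λ‖ ^ 2) := by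
    rw [hint]
    nlinarith [mul_nonneg hcc.le hLL]
  refine le_trans ?_ hle
  have h5 : (2 * π * r) ^ 2 ≤ (∫ α in (-π)..π, g α) ^ 2 := by
    refine le_trans ?_ hG
    have := mul_le_mul_of_nonneg_left hA (by positivity : 0 ≤ 4 * π)
    nlinarith
  exact abs_le_of_sq_le_sq' h5 hG0 |>.2

/-- In the equality case the map is additive. -/
theorem additive {f : ℂ → ℂ} (hf : HarmonicOnNhd f (ball 0 1))
    (hm : ∀ z ∈ ball (0 : ℂ) 1, ‖f z‖ < 1) {r : ℝ} (hr : 0 < r) (hr1 : r < 1)
    (hA : π * r ^ 2 ≤ (volume (f '' closedBall 0 r)).toReal) {a b : ℂ} (ha : ‖a‖ < 1)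
    (hb : ‖b‖ < 1) (hab : ‖a + b‖ < 1) : f (a + b) = f a + f b := by
  have hpi := Real.pi_pos
  set τ := max ‖a‖ (max ‖b‖ ‖a + b‖) with hτ
  have hτ1 : τ < 1 := by rw [hτ]; exact max_lt ha (max_lt hb hab)
  have hτ0 : 0 ≤ τ := (norm_nonneg a).trans (le_max_left _ _)
  set Λ := f (a + b) - f a - f b with hΛ
  have hev : ∀ᶠ s in 𝓝[<] (1 : ℝ), 2 * π * r ≤ 2 * π * (r / s)
      - kk (r / s) / (9 * ((s + τ) / (s - τ))) * (π * ‖Λ‖ ^ 2) := by
    have h1 : ∀ᶠ s in 𝓝[<] (1 : ℝ), max r τ < s :=
      eventually_nhdsWithin_of_eventually_nhds (lt_mem_nhds (max_lt hr1 hτ1))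
    filter_upwards [h1, self_mem_nhdsWithin] with s hs hs1
    exact area_rem hf hm hr (lt_of_le_of_lt (le_max_left _ _) hs) hs1 (le_max_left _ _)
      ((le_max_left _ _).trans (le_max_right _ _)) ((le_max_right _ _).trans (le_max_right _ _))
      (lt_of_le_of_lt (le_max_right _ _) hs) hA
  have hcont : ContinuousAt (fun s : ℝ => 2 * π * (r / s)
      - kk (r / s) / (9 * ((s + τ) / (s - τ))) * (π * ‖Λ‖ ^ 2)) 1 := by
    unfold kk cc BB
    have e1 : (1 : ℝ) ≠ 0 := one_ne_zero
    have hr1' : (1 : ℝ) - r ≠ 0 := by linarith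
    have hτ1' : (1 : ℝ) - τ ≠ 0 := by linarith
    have hτ2 : (1 : ℝ) + τ ≠ 0 := by positivity
    have hr2 : (1 : ℝ) + r ≠ 0 := by positivity
    have c1 : ContinuousAt (fun s : ℝ => r / s) 1 := continuousAt_const.div continuousAt_id e1
    have c2 : ContinuousAt (fun s : ℝ => (1 - (r / s) ^ 2) / (2 * (r / s))) 1 := by
      apply ContinuousAt.div
      · exact continuousAt_const.sub (c1.pow 2)
      · exact continuousAt_const.mul c1
      · simp [hr.ne']
    have c3 : ContinuousAt (fun s : ℝ => (1 + r / s) ^ 2 / (1 - r / s) ^ 2) 1 := by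
      apply ContinuousAt.div
      · exact (continuousAt_const.add c1).pow 2
      · exact (continuousAt_const.sub c1).pow 2
      · simp [hr1']
    have c4 : ContinuousAt (fun s : ℝ => (s + τ) / (s - τ)) 1 := by
      apply ContinuousAt.div
      · exact continuousAt_id.add continuousAt_const
      · exact continuousAt_id.sub continuousAt_const
      · exact hτ1'
    have c5 : ContinuousAt (fun s : ℝ => (1 - (r / s) ^ 2) / (2 * (r / s)) * (r / s) ^ 2
        / (16 * ((1 + r / s) ^ 2 / (1 - r / s) ^ 2))) 1 := by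
      apply ContinuousAt.div
      · exact c2.mul (c1.pow 2)
      · exact continuousAt_const.mul c3
      · simp [hr1', hr2]
    have c6 : ContinuousAt (fun s : ℝ => (1 - (r / s) ^ 2) / (2 * (r / s)) * (r / s) ^ 2
        / (16 * ((1 + r / s) ^ 2 / (1 - r / s) ^ 2)) / (9 * ((s + τ) / (s - τ)))) 1 := by
      apply ContinuousAt.div
      · exact c5
      · exact continuousAt_const.mul c4
      · simp [hτ1', hτ2]
    exact (continuousAt_const.mul c1).sub (c6.mul continuousAt_const)
  have hlim := hcont.tendsto.mono_left (nhdsWithin_le_nhds (s := Iio (1 : ℝ)))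
  have h := ge_of_tendsto hlim hev
  simp only [div_one] at h
  have hk : 0 < kk r / (9 * ((1 + τ) / (1 - τ))) := by
    have := kk_pos hr hr1
    have : 0 < 1 - τ := by linarith
    positivity
  have h2 : ‖Λ‖ ^ 2 ≤ 0 := by
    by_contra hcon
    push Not at hcon
    have := mul_pos hk (mul_pos hpi hcon)
    linarith
  have h3 : Λ = 0 := by
    have h4 : ‖Λ‖ = 0 := by nlinarith [norm_nonneg Λ]
    exact norm_eq_zero.mp h4
  rw [hΛ, sub_sub, sub_eq_zero] at h3
  exact h3

end Pool.Agent.AreaRig
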