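import Mathlib
import Pool.Agent.AreaRig.Final

open Real MeasureTheory Set Metric InnerProductSpace ComplexConjugate Filter Topology

set_option autoImplicit false

namespace Pool.Agent.AreaRig

theorem det_clm (L : ℂ →L[ℝ] ℂ) : LinearMap.det (L : ℂ →ₗ[ℝ] ℂ)
    = (L 1).re * (L Complex.I).im - (L 1).im * (L Complex.I).re := by
  rw [← LinearMap.det_toMatrix Complex.basisOneI, Matrix.det_fin_two]
  simp only [LinearMap.toMatrix_apply, Complex.coe_basisOneI, Complex.coe_basisOneI_repr,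
    ContinuousLinearMap.coe_coe, Matrix.cons_val_zero, Matrix.cons_val_one]
  ring

/-- In the equality case the map is real linear. -/
theorem linear_of_eq {f : ℂ → ℂ} (hf : HarmonicOnNhd f (ball 0 1))
    (hm : ∀ z ∈ ball (0 : ℂ) 1, ‖f z‖ < 1) {r : ℝ} (hr : 0 < r) (hr1 : r < 1)
    (hA : π * r ^ 2 ≤ (volume (f '' closedBall 0 r)).toReal) :
    ∃ L : ℂ →L[ℝ] ℂ, ∀ z ∈ ball (0 : ℂ) 1, f z = L z := by
  have hadd : ∀ a b : ℂ, ‖a‖ < 1 → ‖b‖ < 1 → ‖a + b‖ < 1 → f (a + b) = f a + f b :=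
    fun a b ha hb hab => additive hf hm hr hr1 hA ha hb hab
  have hf0 : f 0 = 0 := by
    have h := hadd 0 0 (by simp) (by simp) (by simp)
    rw [add_zero] at h
    have h2 : f 0 + f 0 = f 0 + 0 := by rw [add_zero, ← h]
    exact add_left_cancel h2
  have hd : DifferentiableAt ℝ f 0 :=
    (hf 0 (by simp)).1.differentiableAt (by norm_num)
  refine ⟨fderiv ℝ f 0, fun z hz => ?_⟩
  rw [mem_ball_zero_iff] at hz
  have hlim := hd.hasFDerivAt.lim_real z
  have hseq : Tendsto (fun n : ℕ => ((n : ℝ) + 1)) atTop atTop :=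
    tendsto_atTop_add_const_right _ _ tendsto_natCast_atTop_atTop
  have h2 := hlim.comp hseq
  have hk : ∀ n : ℕ, ∀ k : ℕ, k ≤ n + 1 → f ((k : ℝ) • (((n : ℝ) + 1)⁻¹ • z))
      = (k : ℝ) • f (((n : ℝ) + 1)⁻¹ • z) := by
    intro n k
    induction k with
    | zero => intro _; simp [hf0]
    | succ k ih =>
      intro hk
      have ih' := ih (by omega)
      have hn : (0 : ℝ) < (n : ℝ) + 1 := by positivity
      have hnorm : ∀ j : ℕ, j ≤ n + 1 → ‖(j : ℝ) • (((n : ℝ) + 1)⁻¹ • z)‖ < 1 := by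
        intro j hj
        rw [norm_smul, norm_smul, Real.norm_eq_abs, Real.norm_eq_abs, abs_of_nonneg (by positivity),
          abs_of_pos (by positivity), ← mul_assoc]
        have h3 : (j : ℝ) * ((n : ℝ) + 1)⁻¹ ≤ 1 := by
          rw [← div_eq_mul_inv, div_le_one hn]
          exact_mod_cast hj
        have h4 : 0 ≤ ‖z‖ := norm_nonneg z
        nlinarith
      have e : ((k + 1 : ℕ) : ℝ) • (((n : ℝ) + 1)⁻¹ • z)
          = (k : ℝ) • (((n : ℝ) + 1)⁻¹ • z) + ((n : ℝ) + 1)⁻¹ • z := by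
        push_cast
        rw [add_smul, one_smul]
      have h1n := hnorm 1 (by omega)
      rw [Nat.cast_one, one_smul] at h1n
      rw [e, hadd _ _ (hnorm k (by omega)) h1n (by rw [← e]; exact hnorm (k + 1) hk), ih']
      push_cast
      rw [add_smul, one_smul]
  have h3 : ∀ n : ℕ, ((n : ℝ) + 1) • (f (0 + ((n : ℝ) + 1)⁻¹ • z) - f 0) = f z := by
    intro n
    have hn : ((n : ℝ) + 1) ≠ 0 := by positivity
    rw [hf0, sub_zero, zero_add]
    have h4 := hk n (n + 1) le_rfl
    push_cast at h4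
    rw [← h4, smul_smul, mul_inv_cancel₀ hn, one_smul]
  have h4 : Tendsto (fun _ : ℕ => f z) atTop (𝓝 (fderiv ℝ f 0 z)) := by
    refine h2.congr fun n => ?_
    exact h3 n
  exact tendsto_nhds_unique tendsto_const_nhds h4

/-- Rigidity: a harmonic self-map of the disc with positive Jacobian which preserves the area of
one concentric disc is a rotation. -/
theorem rigidity {f : ℂ → ℂ} (hf : HarmonicOnNhd f (ball 0 1))
    (hmaps : MapsTo f (ball 0 1) (ball 0 1)) (hJ : ∀ z ∈ ball (0 : ℂ) 1, 0 < (fderiv ℝ f z).det)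
    {r : ℝ} (hr : 0 < r) (hr1 : r < 1)
    (hA : volume (f '' ball 0 r) = volume (ball (0 : ℂ) r)) :
    ∃ θ : ℝ, ∀ z ∈ ball (0 : ℂ) 1, f z = Complex.exp (θ * Complex.I) * z := by
  have hpi := Real.pi_pos
  have hm : ∀ z ∈ ball (0 : ℂ) 1, ‖f z‖ < 1 := fun z hz => by
    have := hmaps hz
    rwa [mem_ball_zero_iff] at this
  have hsub : closedBall (0 : ℂ) r ⊆ ball 0 1 := closedBall_subset_ball hr1
  have hvol : volume (ball (0 : ℂ) r) = ENNReal.ofReal (π * r ^ 2) := by
    rw [Complex.volume_ball, mul_comm, ENNReal.ofReal_mul hpi.le, ENNReal.ofReal_pow hr.le,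
      ENNReal.ofReal_coe_nnreal.symm]
    rfl
  have hK : IsCompact (f '' closedBall 0 r) :=
    (isCompact_closedBall (0 : ℂ) r).image_of_continuousOn (hf.continuousOn.mono hsub)
  have hA' : π * r ^ 2 ≤ (volume (f '' closedBall 0 r)).toReal := by
    have h1 : volume (ball (0 : ℂ) r) ≤ volume (f '' closedBall 0 r) := by
      rw [← hA]
      exact measure_mono (image_mono ball_subset_closedBall)
    rw [hvol] at h1
    exact (ENNReal.ofReal_le_iff_le_toReal hK.measure_lt_top.ne).mp h1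
  obtain ⟨L, hL⟩ := linear_of_eq hf hm hr hr1 hA'
  -- the determinant
  have himg : f '' ball 0 r = L '' ball 0 r := by
    apply image_congr
    intro z hz
    exact hL z (ball_subset_ball hr1.le hz)
  rw [himg, Measure.addHaar_image_continuousLinearMap] at hA
  have hv0 : volume (ball (0 : ℂ) r) ≠ 0 := (measure_ball_pos _ _ hr).ne'
  have hvt : volume (ball (0 : ℂ) r) ≠ ⊤ := measure_ball_lt_top.ne
  have hdet1 : |LinearMap.det (L : ℂ →ₗ[ℝ] ℂ)| = 1 := by
    have h1 : ENNReal.ofReal |LinearMap.det (L : ℂ →ₗ[ℝ] ℂ)| = 1 := by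
      have h2 : ENNReal.ofReal |LinearMap.det (L : ℂ →ₗ[ℝ] ℂ)| * volume (ball (0 : ℂ) r)
          = 1 * volume (ball (0 : ℂ) r) := by rw [hA, one_mul]
      exact (ENNReal.mul_left_inj hv0 hvt).mp h2
    rwa [ENNReal.ofReal_eq_one] at h1
  have hfd : fderiv ℝ f 0 = L := by
    have h1 : f =ᶠ[𝓝 0] L := by
      filter_upwards [ball_mem_nhds (0 : ℂ) one_pos] with z hz
      exact hL z hz
    rw [h1.fderiv_eq]
    exact L.fderiv
  have hdet0 : 0 < LinearMap.det (L : ℂ →ₗ[ℝ] ℂ) := by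
    have h1 := hJ 0 (by simp)
    rw [hfd] at h1
    exact h1
  rw [abs_of_pos hdet0, det_clm] at hdet1
  -- the norm bound
  have hLn : ∀ z : ℂ, ‖z‖ = 1 → ‖L z‖ ≤ 1 := by
    intro z hz
    have h1 : ∀ᶠ t in 𝓝[<] (1 : ℝ), t * ‖L z‖ ≤ 1 := by
      have h2 : ∀ᶠ t in 𝓝[<] (1 : ℝ), 0 < t :=
        eventually_nhdsWithin_of_eventually_nhds (lt_mem_nhds one_pos)
      filter_upwards [h2, self_mem_nhdsWithin] with t ht0 ht1
      have h3 : (t : ℂ) * z ∈ ball (0 : ℂ) 1 := by
        rw [mem_ball_zero_iff, norm_mul, hz, Complex.norm_real, Real.norm_eq_abs, abs_of_pos ht0,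
          mul_one]
        exact ht1
      have h4 := hm _ h3
      rw [hL _ h3] at h4
      have h5 : L ((t : ℂ) * z) = t • L z := by
        rw [← Complex.real_smul, map_smul]
      rw [h5, norm_smul, Real.norm_eq_abs, abs_of_pos ht0] at h4
      exact h4.le
    have h2 : Tendsto (fun t : ℝ => t * ‖L z‖) (𝓝[<] (1 : ℝ)) (𝓝 (1 * ‖L z‖)) :=
      (continuous_id.mul continuous_const).continuousAt.tendsto.mono_left nhdsWithin_le_nhds
    have h3 := le_of_tendsto h2 h1
    rwa [one_mul] at h3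
  set p := L 1 with hp
  set q := L Complex.I with hq
  have hp1 : p.re ^ 2 + p.im ^ 2 ≤ 1 := by
    have h1 := hLn 1 (by simp)
    have h2 := Complex.normSq_eq_norm_sq p
    rw [Complex.normSq_apply] at h2
    nlinarith [norm_nonneg p]
  have hq1 : q.re ^ 2 + q.im ^ 2 ≤ 1 := by
    have h1 := hLn Complex.I (by simp)
    have h2 := Complex.normSq_eq_norm_sq q
    rw [Complex.normSq_apply] at h2
    nlinarith [norm_nonneg q]
  have e1 : q.im = p.re := by
    nlinarith [sq_nonneg (p.re - q.im), sq_nonneg (p.im + q.re)]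
  have e2 : q.re = -p.im := by
    nlinarith [sq_nonneg (p.re - q.im), sq_nonneg (p.im + q.re)]
  have e3 : ‖p‖ = 1 := by
    have h2 := Complex.normSq_eq_norm_sq p
    rw [Complex.normSq_apply] at h2
    have h3 : ‖p‖ ^ 2 = 1 := by
      rw [← h2]
      rw [e1, e2] at hdet1
      linarith
    nlinarith [norm_nonneg p]
  refine ⟨p.arg, fun z hz => ?_⟩
  have h5 : Complex.exp (p.arg * Complex.I) = p := by
    have := Complex.norm_mul_exp_arg_mul_I p
    rw [e3] at this
    simpa using this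
  rw [h5, hL z hz]
  have h6 : z = z.re • (1 : ℂ) + z.im • Complex.I := by
    apply Complex.ext <;> simp
  calc L z = L (z.re • (1 : ℂ) + z.im • Complex.I) := by rw [← h6]
    _ = z.re • p + z.im • q := by rw [map_add, map_smul, map_smul]
    _ = p * z := by
        apply Complex.ext
        · simp only [Complex.add_re, Complex.smul_re, Complex.mul_re, smul_eq_mul, e2]
          ring
        · simp only [Complex.add_im, Complex.smul_im, Complex.mul_im, smul_eq_mul, e1]
          ring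

end Pool.Agent.AreaRig
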